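import Pool.Agent.H16.GZ.Targets4
import Pool.Agent.H86.GMF.BMP

/-!
Row LPB of gz_modules (MP_52e316_nt): the bump functions under small changes of the variable
(helper13).
-/

set_option autoImplicit false

namespace Pool.Agent.H13.GZ

open Pool.Agent.H34.GM Pool.Agent.H34.GZ Pool.Agent.H86.GMF

theorem mul_bd {m : ℕ} {X Y : Mat m} {x y : ℝ} (hx0 : 0 ≤ x) (hx : ∀ i j, |X i j| ≤ x)
    (hy : ∀ i j, |Y i j| ≤ y) (i j : Fin m) : |(X * Y) i j| ≤ m * (x * y) := by
  rw [Matrix.mul_apply]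
  calc |∑ k, X i k * Y k j| ≤ ∑ k, |X i k * Y k j| := Finset.abs_sum_le_sum_abs _ _
    _ ≤ ∑ _k : Fin m, x * y := Finset.sum_le_sum fun k _ => by
        rw [abs_mul]
        exact mul_le_mul (hx i k) (hy k j) (abs_nonneg _) hx0
    _ = m * (x * y) := by
        rw [Finset.sum_const, Finset.card_univ, Fintype.card_fin, nsmul_eq_mul]

theorem sz_le {m : ℕ} {X : Mat m} {x : ℝ} (hx0 : 0 ≤ x) : sz X ≤ x ↔ ∀ i j, |X i j| ≤ x := by
  unfold sz
  rw [pi_norm_le_iff_of_nonneg hx0]
  refine forall_congr' fun i => ?_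
  rw [pi_norm_le_iff_of_nonneg hx0]
  exact Iff.rfl

theorem adj_bd {m : ℕ} {c : Mat m} {x : ℝ} (hx : 1 ≤ x) (hc : ∀ i j, |c i j| ≤ x)
    (i j : Fin m) : |c.adjugate i j| ≤ (Nat.factorial m : ℝ) * x ^ m := by
  rw [Matrix.adjugate_apply]
  have h := Matrix.det_le (A := c.updateRow j (Pi.single i 1)) (abv := AbsoluteValue.abs) (x := x)
    (by
      intro a b
      by_cases h1 : a = j
      · subst h1
        rw [Matrix.updateRow_self]
        change |(Pi.single i (1 : ℝ) : Fin m → ℝ) b| ≤ x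
        by_cases h2 : b = i
        · subst h2
          rw [Pi.single_eq_same, abs_one]
          exact hx
        · rw [Pi.single_eq_of_ne h2, abs_zero]
          linarith
      · rw [Matrix.updateRow_ne h1]
        exact hc a b)
  rw [nsmul_eq_mul, Fintype.card_fin] at h
  exact h

/-- the Euclidean norm of the entries -/
theorem sqrt_SS_sub {m : ℕ} {z z' : Mat m} {η : ℝ} (hη : 0 ≤ η)
    (h : ∀ i j, |(z.transpose * z - 1) i j - (z'.transpose * z' - 1) i j| ≤ η) :
    |Real.sqrt (SS z) - Real.sqrt (SS z')| ≤ m * η := by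
  have e1 : ∀ M : Mat m, Real.sqrt (∑ i, ∑ j, (M i j) ^ 2) =
      ‖(WithLp.toLp 2 (fun p : Fin m × Fin m => M p.1 p.2) : EuclideanSpace ℝ (Fin m × Fin m))‖ := by
    intro M
    rw [EuclideanSpace.norm_eq, Fintype.sum_prod_type]
    simp only [Real.norm_eq_abs, sq_abs]
  unfold SS
  rw [e1, e1]
  refine (abs_norm_sub_norm_le _ _).trans ?_
  rw [EuclideanSpace.norm_eq]
  have h2 : (m : ℝ) * η = Real.sqrt ((m * η) ^ 2) := (Real.sqrt_sq (by positivity)).symm
  rw [h2]
  apply Real.sqrt_le_sqrt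
  calc _ ≤ ∑ _p : Fin m × Fin m, η ^ 2 := by
        refine Finset.sum_le_sum fun p _ => ?_
        rw [Real.norm_eq_abs]
        exact pow_le_pow_left₀ (abs_nonneg _) (h p.1 p.2) 2
    _ = (m * η) ^ 2 := by
        rw [Finset.sum_const, Finset.card_univ, Fintype.card_prod, Fintype.card_fin, nsmul_eq_mul]
        push_cast
        ring

theorem pf_LPB : T_LPB := by
  intro m χ B hm hχ hB
  have hmR : (1 : ℝ) ≤ m := by exact_mod_cast hm
  obtain ⟨c0, hc0, hdet⟩ := det_low m
  -- the profile as a function of the square root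
  have hsupp : HasCompactSupport (fun s : ℝ => χ (s ^ 2)) := by
    refine HasCompactSupport.intro (isCompact_Icc (a := (-1 : ℝ)) (b := 1)) fun s hs => ?_
    apply hχ.supp
    rw [abs_of_nonneg (sq_nonneg s)]
    by_contra h1
    apply hs
    rw [Set.mem_Icc, ← abs_le]
    have h2 : |s| ^ 2 ≤ 1 := by rw [sq_abs]; linarith
    nlinarith [abs_nonneg s]
  have hsm : ContDiff ℝ ((⊤ : ℕ∞) : WithTop ℕ∞) (fun s : ℝ => χ (s ^ 2)) :=
    hχ.smooth.comp (contDiff_id.pow 2)
  obtain ⟨K, hK⟩ := hsm.lipschitzWith_of_hasCompactSupport hsupp (by simp)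
  set A0 : ℝ := (Nat.factorial m : ℝ) * (1 + B) ^ m with hA0
  have hA1 : 1 ≤ A0 := by
    have h1 : (1 : ℝ) ≤ (Nat.factorial m : ℝ) := by exact_mod_cast Nat.factorial_pos m
    have h2 : (1 : ℝ) ≤ (1 + B) ^ m := one_le_pow₀ (by linarith)
    nlinarith
  set Z : ℝ := m * (2 * A0) with hZ
  have hZ2 : 2 ≤ Z := by nlinarith
  set C1 : ℝ := m * ((m * (Z * B)) * (m * (Z * (1 + B)))) + m * (Z * (m * (Z * B))) with hC1
  have hC10 : 0 ≤ C1 := by positivity
  have hK0 : (0 : ℝ) ≤ K := K.2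
  refine ⟨1 + Z + c0⁻¹ + K * (m * C1), ?_, ?_⟩
  · have h1 : 0 ≤ (K : ℝ) * (m * C1) := by positivity
    have h2 : 0 ≤ c0⁻¹ := by positivity
    linarith
  intro δ hδ hδ2 z c τ hc hτ hτ1 hcτ
  have hBτ : 0 ≤ B * τ := by positivity
  have hd : ∀ i j, |(c - 1) i j| ≤ B * τ := (sz_le hBτ).mp hcτ
  have hcb : ∀ i j, |c i j| ≤ 1 + B := by
    intro i j
    have h1 := hd i j
    have h2 : c i j = (c - 1) i j + (1 : Mat m) i j := by simp
    have h3 : |(1 : Mat m) i j| ≤ 1 := by
      rw [Matrix.one_apply]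
      split_ifs <;> simp
    rw [h2]
    refine (abs_add_le _ _).trans ?_
    nlinarith
  have hadj := adj_bd (by linarith : (1 : ℝ) ≤ 1 + B) hcb
  have hzc : z = (z * c) * c.adjugate := by
    rw [Matrix.mul_assoc, Matrix.mul_adjugate, hc, one_smul, Matrix.mul_one]
  -- the support
  have hsup : ∀ w : Mat m, bump m χ δ w ≠ 0 → SS w ≤ 1 / 4 := by
    intro w hw
    by_contra h1
    apply hw
    rw [bump_eq, hχ.supp, Complex.ofReal_zero]
    rw [abs_of_nonneg (div_nonneg (SS_nonneg _) (sq_nonneg _)), le_div_iff₀ (by positivity)]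
    nlinarith
  have hsz : bump m χ δ z ≠ 0 ∨ bump m χ δ (z * c) ≠ 0 → (∀ i j, |z i j| ≤ Z) ∧ c0 ≤ |z.det| := by
    rintro (h1 | h1)
    · refine ⟨fun i j => (SS_entry z (hsup _ h1) i j).trans hZ2, hdet z (hsup _ h1)⟩
    · constructor
      · rw [hzc]
        exact mul_bd (by norm_num) (SS_entry _ (hsup _ h1)) hadj
      · have h2 := hdet _ (hsup _ h1)
        rwa [Matrix.det_mul, hc, mul_one] at h2
  refine ⟨?_, ?_⟩
  · by_cases h0 : bump m χ δ z ≠ 0 ∨ bump m χ δ (z * c) ≠ 0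
    · obtain ⟨hz, -⟩ := hsz h0
      have hZ0 : 0 ≤ Z := by linarith
      have hzd : ∀ i j, |(z * (c - 1)) i j| ≤ m * (Z * (B * τ)) := mul_bd hZ0 hz hd
      have hzc' : ∀ i j, |(z * c) i j| ≤ m * (Z * (1 + B)) := mul_bd hZ0 hz hcb
      have hzt : ∀ i j, |z.transpose i j| ≤ Z := fun i j => hz j i
      have hzdt : ∀ i j, |(z * (c - 1)).transpose i j| ≤ m * (Z * (B * τ)) := fun i j => hzd j i
      have e1 : ((z * c).transpose * (z * c) - 1) - (z.transpose * z - 1) =
          (z * (c - 1)).transpose * (z * c) + z.transpose * (z * (c - 1)) := by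
        rw [Matrix.mul_sub, Matrix.mul_one, Matrix.transpose_sub, Matrix.sub_mul, Matrix.mul_sub]
        abel
      have hη : ∀ i j, |(z.transpose * z - 1) i j - ((z * c).transpose * (z * c) - 1) i j| ≤
          C1 * τ := by
        intro i j
        rw [abs_sub_comm, ← Matrix.sub_apply, e1, Matrix.add_apply]
        refine (abs_add_le _ _).trans ?_
        have h1 := mul_bd (by positivity) hzdt hzc' i j
        have h2 := mul_bd hZ0 hzt hzd i j
        calc _ ≤ m * ((m * (Z * (B * τ))) * (m * (Z * (1 + B)))) + m * (Z * (m * (Z * (B * τ)))) :=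
              add_le_add h1 h2
          _ = C1 * τ := by rw [hC1]; ring
      have h3 := sqrt_SS_sub (by positivity) hη
      have e2 : ∀ w : Mat m, bump m χ δ w = ((χ ((Real.sqrt (SS w) / δ) ^ 2) : ℝ) : ℂ) := by
        intro w
        rw [bump_eq, div_pow, Real.sq_sqrt (SS_nonneg w)]
      rw [e2, e2, ← Complex.ofReal_sub, Complex.norm_real]
      have h4 := hK.dist_le_mul (Real.sqrt (SS z) / δ) (Real.sqrt (SS (z * c)) / δ)
      rw [Real.dist_eq, Real.dist_eq, ← sub_div, abs_div, abs_of_pos hδ] at h4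
      rw [Real.norm_eq_abs]
      refine h4.trans ?_
      calc (K : ℝ) * (|Real.sqrt (SS z) - Real.sqrt (SS (z * c))| / δ) ≤
            K * ((m * (C1 * τ)) / δ) := by
            apply mul_le_mul_of_nonneg_left _ hK0
            exact div_le_div_of_nonneg_right h3 hδ.le
        _ = (K * (m * C1)) * δ⁻¹ * τ := by ring
        _ ≤ _ := by
          apply mul_le_mul_of_nonneg_right _ hτ
          apply mul_le_mul_of_nonneg_right _ (by positivity)
          have h5 : 0 ≤ c0⁻¹ := by positivity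
          linarith
    · rw [not_or, not_not, not_not] at h0
      rw [h0.1, h0.2, sub_zero, norm_zero]
      have h1 : 0 ≤ (K : ℝ) * (m * C1) := by positivity
      have h2 : 0 ≤ c0⁻¹ := by positivity
      have h3 : 0 ≤ 1 + Z + c0⁻¹ + K * (m * C1) := by linarith
      positivity
  · intro h0
    obtain ⟨hz, hz'⟩ := hsz h0
    have h1 : 0 ≤ (K : ℝ) * (m * C1) := by positivity
    have h2 : 0 ≤ c0⁻¹ := by positivity
    refine ⟨((sz_le (by linarith)).mpr hz).trans (by linarith), ?_⟩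
    refine le_trans ?_ hz'
    rw [inv_le_comm₀ (by linarith) hc0]
    linarith

end Pool.Agent.H13.GZ
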