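import Pool.Agent.H18.GZ.Targets3

/-!
Row SMZ of gz_modules (MP_52e316_nt): size of the eigenvalues for one form (helper13).
-/

set_option autoImplicit false

namespace Pool.Agent.H13.GZ

open MeasureTheory Pool.Agent.H34.GM Pool.Agent.H34.GZ

/-- a bound of the integral of the norm gives a bound of the norm of the integral -/
theorem norm_int_le {X : Type*} [MeasurableSpace X] (μ : Measure X) (f : X → ℂ) (B : ℝ)
    (hB : 0 ≤ B) (h : ∫⁻ z, ENNReal.ofReal ‖f z‖ ∂μ ≤ ENNReal.ofReal B) : ‖∫ z, f z ∂μ‖ ≤ B := by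
  have h1 : ENNReal.ofReal ‖∫ z, f z ∂μ‖ ≤ ENNReal.ofReal B := by
    refine le_trans ?_ h
    rw [ofReal_norm]
    refine (enorm_integral_le_lintegral_enorm f).trans (le_of_eq ?_)
    exact lintegral_congr fun z => (ofReal_norm (f z)).symm
  exact (ENNReal.ofReal_le_ofReal_iff hB).mp h1

/-- forms of positive norm do not vanish identically -/
theorem nz_of_nF {m q : ℕ} [NeZero q] {T : ℕ → Finset (ZM m)} {D : Set (V m)}
    (hS : SysZ m q T D) {F : Mat m → RM m q → ℂ} (h : nF D F ≠ 0) : NZ F := by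
  by_contra hc
  apply h
  have hF : ∀ g x, g.det ≠ 0 → F g x = 0 := by
    intro g x hg
    by_contra h1
    exact hc ⟨g, x, hg, h1⟩
  unfold nF
  refine Finset.sum_eq_zero fun x _ => ?_
  refine setIntegral_eq_zero_of_forall_eq_zero fun z hz => ?_
  have h1 : (mt z).det ≠ 0 := by
    intro h2
    have h3 := (hS.dom.shell z hz).1
    unfold aN at h3
    rw [h2, abs_zero, Real.zero_rpow] at h3
    · linarith
    · have h4 : (m : ℝ) ≠ 0 := by
        have := hS.one_le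
        exact_mod_cast (by omega : m ≠ 0)
      exact one_div_ne_zero h4
  rw [hF _ x h1]
  simp

theorem pf_SMZ (hADJ : T_ADJ) (hTHW : T_THW) (hLMZ : T_LMZ) (hFTG : T_FTG)
    (hTHC : T_THC) : T_SMZ := by
  intro m q _ T D hS F lam mu hC hn Φ hΦ N
  have hm : 1 ≤ m := hS.one_le
  have hq : 2 ≤ q := hS.two_le
  have hqR : (2 : ℝ) ≤ q := by exact_mod_cast hq
  have hq0 : (0 : ℝ) < q := by linarith
  have hq1 : (1 : ℝ) ≤ q := by linarith
  have hmR : (1 : ℝ) ≤ m := by exact_mod_cast hm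
  obtain ⟨C0, hC0, hc⟩ := hLMZ m q T D hS F lam mu hC.toEigZ (nz_of_nF hS hn)
  set K1 : ℕ := N + m ^ 2 + m * (m + 2) + 1 with hK1
  obtain ⟨N1, hN1⟩ := hTHW m hm mu K1 hC.tr0
  have hdec := (hFTG m hm Φ hΦ).1
  obtain ⟨M, hM0, hM⟩ := hdec.dec N1
  obtain ⟨C1, hC1, hloc⟩ := hN1 M hM0
  have hloc' : ∀ t : ℝ, 0 < t → t ≤ 1 →
      ‖th1 (fun w => (starRingEnd ℂ) (ft Φ w)) mu t‖ ≤ C1 * t ^ K1 := by
    intro t ht ht1
    unfold th1
    exact norm_int_le _ _ _ (by positivity) (((hloc _ hdec.cont hM t ht).2) ht1)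
  -- the sum of the series
  have hsum : Summable fun n : ℕ => 1 / (n : ℝ) ^ 2 :=
    Real.summable_one_div_nat_pow.mpr (by norm_num)
  set S2 : ℝ := ∑' n : ℕ, 1 / (n : ℝ) ^ 2 with hS2
  have hS20 : 0 ≤ S2 := tsum_nonneg fun n => by positivity
  have hth : ∀ r : ℝ, 0 < r → r ≤ 1 →
      ‖thF q (fun w => (starRingEnd ℂ) (ft Φ w)) mu lam r‖ ≤ C0 * C1 * S2 * r ^ K1 := by
    intro r hr hr1
    unfold thF
    have hs : HasSum (fun n : ℕ => C0 * C1 * r ^ K1 * (1 / (n : ℝ) ^ 2))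
        (C0 * C1 * r ^ K1 * S2) := hsum.hasSum.mul_left _
    have e1 : C0 * C1 * S2 * r ^ K1 = C0 * C1 * r ^ K1 * S2 := by ring
    rw [e1]
    refine tsum_of_norm_bounded hs fun n => ?_
    split_ifs with h
    · obtain ⟨h1, h2⟩ := h
      have hnR : (1 : ℝ) ≤ n := by exact_mod_cast h1
      have hn0 : (0 : ℝ) < n := by linarith
      have ht0 : 0 < r * (n : ℝ) ^ (-(1 / (m : ℝ))) := mul_pos hr (Real.rpow_pos_of_pos hn0 _)
      have ht1 : r * (n : ℝ) ^ (-(1 / (m : ℝ))) ≤ 1 := by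
        have h3 : (n : ℝ) ^ (-(1 / (m : ℝ))) ≤ 1 :=
          Real.rpow_le_one_of_one_le_of_nonpos hnR (by
            have : 0 ≤ 1 / (m : ℝ) := by positivity
            linarith)
        have h4 : 0 ≤ (n : ℝ) ^ (-(1 / (m : ℝ))) := Real.rpow_nonneg hn0.le _
        nlinarith
      rw [norm_mul]
      calc _ ≤ (C0 * (n : ℝ) ^ m) * (C1 * (r * (n : ℝ) ^ (-(1 / (m : ℝ)))) ^ K1) :=
            mul_le_mul (hc n h1 h2) (hloc' _ ht0 ht1) (norm_nonneg _) (by positivity)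
        _ = C0 * C1 * r ^ K1 * ((n : ℝ) ^ m * ((n : ℝ) ^ (-(1 / (m : ℝ)))) ^ K1) := by
            rw [mul_pow]
            ring
        _ ≤ C0 * C1 * r ^ K1 * (1 / (n : ℝ) ^ 2) := by
            apply mul_le_mul_of_nonneg_left _ (by positivity)
            have e2 : (1 : ℝ) / (n : ℝ) ^ 2 = (n : ℝ) ^ (-(2 : ℝ)) := by
              rw [Real.rpow_neg hn0.le, Real.rpow_two, one_div]
            have e3 : (n : ℝ) ^ m * ((n : ℝ) ^ (-(1 / (m : ℝ)))) ^ K1 =
                (n : ℝ) ^ ((m : ℝ) + (-(1 / (m : ℝ))) * (K1 : ℝ)) := by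
              rw [Real.rpow_add hn0, Real.rpow_natCast, Real.rpow_mul hn0.le, Real.rpow_natCast]
            rw [e2, e3]
            apply Real.rpow_le_rpow_of_exponent_le hnR
            have h5 : ((m : ℝ) + 2) ≤ (1 / (m : ℝ)) * (K1 : ℝ) := by
              rw [one_div, inv_mul_eq_div, le_div_iff₀ (by linarith)]
              rw [hK1]
              push_cast
              nlinarith [Nat.cast_nonneg (α := ℝ) N, sq_nonneg (m : ℝ)]
            linarith
    · rw [norm_zero]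
      positivity
  set C2 : ℝ := C0 * C1 * S2 with hC2
  have hC20 : 0 ≤ C2 := by positivity
  have hD : ∀ r : ℝ, 0 < r → r ≤ 1 → ‖thDz q Φ mu lam r‖ ≤ C2 * r ^ K1 := fun r hr hr1 =>
    (hADJ m q T D hS F lam mu hC hn Φ hΦ r hr).trans (hth r hr hr1)
  obtain ⟨hcont, -⟩ := hTHC m q Φ mu lam hm hΦ.toTst hC.tr0
  have hcomp : IsCompact (Set.Icc (1 : ℝ) q) := isCompact_Icc
  obtain ⟨C3, hC3⟩ := hcomp.exists_bound_of_continuousOn
    (hcont.mono fun x hx => lt_of_lt_of_le one_pos hx.1)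
  have hC30 : 0 ≤ C3 := (norm_nonneg _).trans (hC3 1 ⟨le_rfl, hq1⟩)
  refine ⟨C2 + C2 * (q : ℝ) ^ K1 + C3 * (q : ℝ) ^ N, ?_, ?_⟩
  · intro r hr hr1
    refine (hD r hr hr1).trans ?_
    have h1 : r ^ K1 ≤ r ^ N := pow_le_pow_of_le_one hr.le hr1 (by omega)
    calc C2 * r ^ K1 ≤ C2 * r ^ N := mul_le_mul_of_nonneg_left h1 hC20
      _ ≤ _ := by
        apply mul_le_mul_of_nonneg_right _ (by positivity)
        have h2 : 0 ≤ C2 * (q : ℝ) ^ K1 := by positivity
        have h3 : 0 ≤ C3 * (q : ℝ) ^ N := by positivity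
        linarith
  · intro R hR
    have hR0 : 0 < R := by linarith
    have hRN : 0 < R ^ (-(N : ℝ)) := Real.rpow_pos_of_pos hR0 _
    rcases lt_or_ge R q with hRq | hRq
    · have h1 := hC3 R ⟨hR, hRq.le⟩
      have h2 : (1 : ℝ) ≤ (q : ℝ) ^ N * R ^ (-(N : ℝ)) := by
        rw [Real.rpow_neg hR0.le, Real.rpow_natCast, ← div_eq_mul_inv,
          le_div_iff₀ (by positivity), one_mul]
        exact pow_le_pow_left₀ hR0.le hRq.le N
      calc _ ≤ C3 := h1
        _ ≤ C3 * ((q : ℝ) ^ N * R ^ (-(N : ℝ))) := le_mul_of_one_le_right hC30 h2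
        _ = (C3 * (q : ℝ) ^ N) * R ^ (-(N : ℝ)) := by ring
        _ ≤ _ := by
          apply mul_le_mul_of_nonneg_right _ hRN.le
          have h3 : 0 ≤ C2 * (q : ℝ) ^ K1 := by positivity
          linarith
    · have hr0 : 0 < (q : ℝ) / R := by positivity
      have hr1 : (q : ℝ) / R ≤ 1 := by
        rw [div_le_one hR0]
        exact hRq
      have h1 := hD _ hr0 hr1
      have e1 : (q : ℝ) / ((q : ℝ) / R) = R := by
        field_simp
      unfold thDz at h1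
      rw [e1, norm_mul, Complex.norm_real, Real.norm_eq_abs, abs_of_pos (by positivity)] at h1
      have h2 : (1 : ℝ) ≤ (q : ℝ) ^ ((m : ℝ) ^ 2 / 2) :=
        Real.one_le_rpow hq1 (by positivity)
      have h3 : R ^ (-((m : ℝ) ^ 2)) * ‖thF q Φ mu lam R‖ ≤ C2 * ((q : ℝ) / R) ^ K1 := by
        refine le_trans ?_ h1
        apply mul_le_mul_of_nonneg_right _ (norm_nonneg _)
        exact le_mul_of_one_le_left (Real.rpow_nonneg hR0.le _) h2
      have h4 : R ^ (-((m : ℝ) ^ 2)) * R ^ ((m : ℝ) ^ 2) = 1 := by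
        rw [← Real.rpow_add hR0]
        simp
      have h5 : ‖thF q Φ mu lam R‖ ≤ C2 * ((q : ℝ) / R) ^ K1 * R ^ ((m : ℝ) ^ 2) := by
        calc ‖thF q Φ mu lam R‖ = (R ^ (-((m : ℝ) ^ 2)) * R ^ ((m : ℝ) ^ 2)) *
              ‖thF q Φ mu lam R‖ := by rw [h4, one_mul]
          _ = (R ^ (-((m : ℝ) ^ 2)) * ‖thF q Φ mu lam R‖) * R ^ ((m : ℝ) ^ 2) := by ring
          _ ≤ _ := mul_le_mul_of_nonneg_right h3 (Real.rpow_nonneg hR0.le _)
      have h6 : ((q : ℝ) / R) ^ K1 * R ^ ((m : ℝ) ^ 2) ≤ (q : ℝ) ^ K1 * R ^ (-(N : ℝ)) := by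
        rw [div_pow, div_mul_eq_mul_div, mul_div_assoc]
        apply mul_le_mul_of_nonneg_left _ (by positivity)
        rw [div_eq_mul_inv, ← Real.rpow_natCast R K1, ← Real.rpow_neg hR0.le,
          ← Real.rpow_add hR0]
        apply Real.rpow_le_rpow_of_exponent_le hR
        rw [hK1]
        push_cast
        nlinarith
      calc _ ≤ _ := h5
        _ = C2 * (((q : ℝ) / R) ^ K1 * R ^ ((m : ℝ) ^ 2)) := by ring
        _ ≤ C2 * ((q : ℝ) ^ K1 * R ^ (-(N : ℝ))) := mul_le_mul_of_nonneg_left h6 hC20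
        _ = (C2 * (q : ℝ) ^ K1) * R ^ (-(N : ℝ)) := by ring
        _ ≤ _ := by
          apply mul_le_mul_of_nonneg_right _ hRN.le
          have h7 : 0 ≤ C3 * (q : ℝ) ^ N := by positivity
          linarith

end Pool.Agent.H13.GZ
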